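import Pool.Agent.H37.CNW.Stmts

/-!
# Row XNU of the board cnw
-/

set_option autoImplicit false

namespace Pool.CND

open Finset

private theorem xnu_reg_add {k L : Type} [Field k] [Field L] [Algebra k L] {t x y : L}
    (hx : Reg k t x) (hy : Reg k t y) : Reg k t (x + y) := by
  intro P hP
  by_cases h : x + y = 0
  · exact Or.inl h
  right
  rcases hx P hP with h1 | h1
  · rw [h1, zero_add]
    rcases hy P hP with h2 | h2
    · exact absurd (by rw [h1, h2, add_zero]) h
    · exact h2
  · rcases hy P hP with h2 | h2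
    · rw [h2, add_zero]; exact h1
    · by_cases hx0 : x = 0
      · rw [hx0, zero_add]; exact h2
      by_cases hy0 : y = 0
      · rw [hy0, add_zero]; exact h1
      exact (le_min h1 h2).trans (P.ord_add x y hx0 hy0 h)

private theorem xnu_reg_sum {k L ι : Type} [Field k] [Field L] [Algebra k L] {t : L}
    (s : Finset ι) (f : ι → L) (h : ∀ i ∈ s, Reg k t (f i)) : Reg k t (∑ i ∈ s, f i) := by
  classical
  induction s using Finset.induction_on with
  | empty => intro P hP; left; simp
  | insert a s ha ih =>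
    rw [Finset.sum_insert ha]
    exact xnu_reg_add (h a (Finset.mem_insert_self a s))
      (ih fun i hi => h i (Finset.mem_insert_of_mem hi))

/-- the place `z ↦ P.ord (σ z)` -/
private noncomputable def xnuPl {k L : Type} [Field k] [Field L] [Algebra k L] (P : Place k L)
    (σ : L ≃ₐ[k] L) : Place k L where
  ord z := P.ord (σ z)
  ord_mul x y hx hy := by
    rw [map_mul]
    exact P.ord_mul _ _ (by simpa using hx) (by simpa using hy)
  ord_add x y hx hy hxy := by
    rw [map_add]
    refine P.ord_add _ _ (by simpa using hx) (by simpa using hy) ?_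
    rw [← map_add]
    exact (map_ne_zero_iff _ σ.injective).2 hxy
  ord_surj := by
    obtain ⟨x, hx, h1⟩ := P.ord_surj
    exact ⟨σ.symm x, by simpa using hx, by rw [AlgEquiv.apply_symm_apply]; exact h1⟩
  ord_const c hc := by
    rw [AlgEquiv.commutes]
    exact P.ord_const c hc
  residue x hx h0 := by
    obtain ⟨c, hc⟩ := P.residue (σ x) (by simpa using hx) h0
    refine ⟨c, ?_⟩
    rcases hc with hc | hc
    · left
      apply σ.injective
      rw [hc, AlgEquiv.commutes]
    · right
      rw [map_sub, AlgEquiv.commutes]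
      exact hc

private theorem xnu_reg_rho {k L : Type} [Field k] [Field L] [Algebra k L] {t x : L}
    (σ : L ≃ₐ[k] L) (ht : σ t = t) (hx : Reg k t x) : Reg k t (σ x) := by
  intro P hP
  rcases hx (xnuPl P σ) (show 0 ≤ P.ord (σ t) by rw [ht]; exact hP) with h | h
  · left; rw [h, map_zero]
  · right; exact h

theorem xnu_thm (hNBX : S_NBX) : S_XNU := by
  intro p k L H Ω _ _ _ _ _ _ _ _ _ ρ t hp hch hcov
  classical
  haveI : Fintype H := Fintype.ofFinite H
  have hfixt : ∀ u : H, ρ u t = t := by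
    intro u
    exact ((hcov.fixed t).2 (IntermediateField.mem_adjoin_simple_self k t)) u
  rcases isEmpty_or_nonempty Ω with hΩ | hΩ
  · exact ⟨fun _ => 0, fun _ ω => (hΩ.false ω).elim, fun ω => (hΩ.false ω).elim,
      fun a ⟨ω, _⟩ => (hΩ.false ω).elim⟩
  obtain ⟨ω₀⟩ := hΩ
  obtain ⟨ξ₀, hreg, hne⟩ := hNBX p k L H ρ t hp hch hcov
  refine ⟨fun ω => ∑ u ∈ Finset.univ.filter (fun u : H => u • ω₀ = ω), ρ u ξ₀, ?_, ?_, ?_⟩
  · intro h ω
    simp only
    rw [map_sum]
    refine Finset.sum_bij (fun u _ => h * u) ?_ ?_ ?_ ?_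
    · intro u hu
      rw [Finset.mem_filter] at hu ⊢
      exact ⟨Finset.mem_univ _, by rw [mul_smul, hu.2]⟩
    · intro u _ v _ huv
      exact mul_left_cancel huv
    · intro v hv
      rw [Finset.mem_filter] at hv
      refine ⟨h⁻¹ * v, ?_, by group⟩
      rw [Finset.mem_filter]
      exact ⟨Finset.mem_univ _, by rw [mul_smul, hv.2, inv_smul_smul]⟩
    · intro u _
      rw [map_mul]; rfl
  · intro ω
    exact xnu_reg_sum _ _ fun u _ => xnu_reg_rho (ρ u) (hfixt u) hreg
  · rintro a ⟨ω, hω⟩ c hc
    obtain ⟨u₁, hu₁⟩ := MulAction.exists_smul_eq H ω₀ ω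
    refine hne (fun u => a (u • ω₀)) ⟨u₁, by rw [hu₁]; exact hω⟩ c ?_
    rw [← hc]
    rw [← Finset.sum_fiberwise_of_maps_to (s := Finset.univ) (t := Finset.univ)
      (g := fun u : H => u • ω₀) (fun _ _ => Finset.mem_univ _)]
    refine Finset.sum_congr rfl fun ω' _ => ?_
    rw [Finset.mul_sum]
    refine Finset.sum_congr rfl fun u hu => ?_
    rw [(Finset.mem_filter.1 hu).2]

end Pool.CND
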